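import Mathlib

/-!
The n-th diameters of a compact plane set and its transfinite diameter (logarithmic capacity):
the n-th diameters decrease, and they are at least `1/2` for a set containing `[-1,1]`.
-/

set_option autoImplicit false

open Filter Topology Set Polynomial

namespace Pool.Agent.TH962.Cap

/-- product of the distances of all pairs `i < j` of the points `w 0, …, w (n-1)` -/
noncomputable def distProd {n : ℕ} (w : Fin n → ℂ) : ℝ :=
  ∏ i : Fin n, ∏ j ∈ Finset.Ioi i, ‖w i - w j‖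

/-- the supremum of the product of the mutual distances of `n` points of `K` -/
noncomputable def maxDistProd (K : Set ℂ) (n : ℕ) : ℝ :=
  sSup (distProd '' {w : Fin n → ℂ | ∀ i, w i ∈ K})

/-- the `n`-th diameter `d_n(K) = sup ∏_{i<j} |w_i - w_j|^(2/(n(n-1)))` -/
noncomputable def nthDiam (K : Set ℂ) (n : ℕ) : ℝ :=
  (maxDistProd K n) ^ ((2 : ℝ) / ((n : ℝ) * ((n : ℝ) - 1)))

/-- the logarithmic capacity (transfinite diameter) `c(K) = lim d_n(K)` -/
noncomputable def logCapacity (K : Set ℂ) : ℝ := limUnder atTop (nthDiam K)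

theorem distProd_eq_det {n : ℕ} (w : Fin n → ℂ) : distProd w = ‖(Matrix.vandermonde w).det‖ := by
  rw [Matrix.det_vandermonde, norm_prod]
  unfold distProd
  refine Finset.prod_congr rfl fun i _ => ?_
  rw [norm_prod]
  refine Finset.prod_congr rfl fun j _ => ?_
  rw [norm_sub_rev]

theorem distProd_nonneg {n : ℕ} (w : Fin n → ℂ) : 0 ≤ distProd w := by
  rw [distProd_eq_det]; exact norm_nonneg _

theorem continuous_distProd (n : ℕ) : Continuous (fun w : Fin n → ℂ => distProd w) := by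
  unfold distProd
  fun_prop

theorem distProd_perm {n : ℕ} (w : Fin n → ℂ) (σ : Equiv.Perm (Fin n)) :
    distProd (w ∘ σ) = distProd w := by
  rw [distProd_eq_det, distProd_eq_det]
  have : Matrix.vandermonde (w ∘ σ) = (Matrix.vandermonde w).submatrix σ id := by
    ext i j
    simp [Matrix.vandermonde]
  rw [this, Matrix.det_permute, norm_mul]
  rcases Int.units_eq_one_or (Equiv.Perm.sign σ) with h | h <;> simp [h]

theorem distProd_cons {n : ℕ} (z : ℂ) (w : Fin n → ℂ) :
    distProd (Fin.cons z w : Fin (n + 1) → ℂ) = (∏ j, ‖z - w j‖) * distProd w := by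
  unfold distProd
  rw [Fin.prod_univ_succ]
  congr 1
  · rw [Fin.prod_Ioi_zero]
    simp
  · refine Finset.prod_congr rfl fun i _ => ?_
    rw [Fin.prod_Ioi_succ]
    simp

theorem distProd_succAbove {n : ℕ} (w : Fin (n + 1) → ℂ) (i : Fin (n + 1)) :
    distProd w = (∏ j, ‖w i - w (i.succAbove j)‖) * distProd (fun j => w (i.succAbove j)) := by
  rw [← distProd_cons, ← distProd_perm w i.cycleRange.symm]
  congr 1
  ext j
  refine Fin.cases ?_ (fun j => ?_) j <;> simp

theorem prod_distProd {n : ℕ} (w : Fin (n + 1) → ℂ) :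
    distProd w ^ (n + 1) =
      distProd w ^ 2 * ∏ i : Fin (n + 1), distProd (fun j : Fin n => w (i.succAbove j)) := by
  have h1 : distProd w ^ (n + 1) = ∏ i : Fin (n + 1),
      ((∏ j, ‖w i - w (i.succAbove j)‖) * distProd (fun j => w (i.succAbove j))) := by
    rw [← Finset.prod_congr rfl (fun i _ => distProd_succAbove w i)]
    simp
  rw [h1, Finset.prod_mul_distrib]
  congr 1
  have h2 := Finset.prod_prod_Ioi_mul_eq_prod_prod_off_diag (fun i j : Fin (n + 1) => ‖w i - w j‖)
  have h3 : ∏ i : Fin (n + 1), ∏ j ∈ Finset.Ioi i, (‖w j - w i‖ * ‖w i - w j‖) = distProd w ^ 2 := by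
    simp only [Finset.prod_mul_distrib]
    rw [sq]
    congr 1
    unfold distProd
    refine Finset.prod_congr rfl fun i _ => Finset.prod_congr rfl fun j _ => ?_
    rw [norm_sub_rev]
  rw [← h3, h2]
  refine Finset.prod_congr rfl fun i _ => ?_
  rw [← Finset.prod_image (s := Finset.univ) (g := fun j : Fin n => i.succAbove j)
    (f := fun k => ‖w i - w k‖)]
  · rw [Fin.image_succAbove_univ]
    refine Finset.prod_congr rfl fun j _ => ?_
    rw [norm_sub_rev]
  · intro a _ b _ hab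
    exact Fin.succAbove_right_injective hab

theorem isCompact_tuples {E : Set ℂ} (hE : IsCompact E) (n : ℕ) :
    IsCompact {w : Fin n → ℂ | ∀ i, w i ∈ E} := by
  have := isCompact_univ_pi (fun _ : Fin n => hE)
  convert this using 1
  ext w; simp

theorem bddAbove_distProd {E : Set ℂ} (hE : IsCompact E) (n : ℕ) :
    BddAbove (distProd '' {w : Fin n → ℂ | ∀ i, w i ∈ E}) :=
  ((isCompact_tuples hE n).image (continuous_distProd n)).bddAbove

theorem le_maxDistProd {E : Set ℂ} (hE : IsCompact E) {n : ℕ} {w : Fin n → ℂ}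
    (hw : ∀ i, w i ∈ E) : distProd w ≤ maxDistProd E n :=
  le_csSup (bddAbove_distProd hE n) ⟨w, hw, rfl⟩

theorem maxDistProd_nonneg (E : Set ℂ) (n : ℕ) : 0 ≤ maxDistProd E n := by
  apply Real.sSup_nonneg
  rintro _ ⟨w, _, rfl⟩
  exact distProd_nonneg w

theorem nthDiam_nonneg (E : Set ℂ) (n : ℕ) : 0 ≤ nthDiam E n :=
  Real.rpow_nonneg (maxDistProd_nonneg E n) _

/-- Fekete: `M_{n+1}^{n-1} ≤ M_n^{n+1}`. -/
theorem maxDistProd_succ {E : Set ℂ} (hE : IsCompact E) {n : ℕ} (hn : 2 ≤ n) :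
    maxDistProd E (n + 1) ^ (n - 1) ≤ maxDistProd E n ^ (n + 1) := by
  rcases E.eq_empty_or_nonempty with h | ⟨z, hz⟩
  · subst h
    have : maxDistProd ∅ (n + 1) = 0 := by
      unfold maxDistProd
      have : {w : Fin (n + 1) → ℂ | ∀ i, w i ∈ (∅ : Set ℂ)} = ∅ := by
        ext w; simp
      rw [this]; simp
    rw [this, zero_pow (by omega)]
    exact pow_nonneg (maxDistProd_nonneg _ _) _
  · have hc := (isCompact_tuples hE (n + 1)).image (continuous_distProd (n + 1))
    have hne : (distProd '' {w : Fin (n + 1) → ℂ | ∀ i, w i ∈ E}).Nonempty :=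
      ⟨_, fun _ => z, fun _ => hz, rfl⟩
    obtain ⟨w, hw, hw2⟩ := hc.sSup_mem hne
    have hwM : distProd w = maxDistProd E (n + 1) := hw2
    rw [← hwM]
    rcases (distProd_nonneg w).eq_or_lt with h0 | h0
    · rw [← h0, zero_pow (by omega)]
      exact pow_nonneg (maxDistProd_nonneg _ _) _
    · have h1 := prod_distProd w
      have h2 : ∏ i : Fin (n + 1), distProd (fun j => w (i.succAbove j)) ≤
          ∏ _i : Fin (n + 1), maxDistProd E n := by
        apply Finset.prod_le_prod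
        · intro i _; exact distProd_nonneg _
        · intro i _; exact le_maxDistProd hE (fun j => hw _)
      rw [Finset.prod_const, Finset.card_univ, Fintype.card_fin] at h2
      have h3 : distProd w ^ (n + 1) = distProd w ^ 2 * distProd w ^ (n - 1) := by
        rw [← pow_add]; congr 1; omega
      rw [h3] at h1
      have h4 := mul_left_cancel₀ (pow_pos h0 2).ne' h1
      rw [h4]
      exact h2

theorem nthDiam_succ_le {E : Set ℂ} (hE : IsCompact E) {n : ℕ} (hn : 2 ≤ n) :
    nthDiam E (n + 1) ≤ nthDiam E n := by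
  have hn' : (2 : ℝ) ≤ n := by exact_mod_cast hn
  have h := maxDistProd_succ hE hn
  have hM0 := maxDistProd_nonneg E (n + 1)
  have hM1 := maxDistProd_nonneg E n
  have hp : (0 : ℝ) < 2 / (((n : ℝ) + 1) * n * ((n : ℝ) - 1)) := by
    apply div_pos (by norm_num)
    have : (0 : ℝ) < (n : ℝ) - 1 := by linarith
    positivity
  have h2 := Real.rpow_le_rpow (pow_nonneg hM0 _) h hp.le
  rw [← Real.rpow_natCast, ← Real.rpow_natCast, ← Real.rpow_mul hM0, ← Real.rpow_mul hM1] at h2
  have hn1 : ((n - 1 : ℕ) : ℝ) = (n : ℝ) - 1 := by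
    rw [Nat.cast_sub (by omega)]; simp
  have hne : (n : ℝ) - 1 ≠ 0 := by linarith
  have hn0 : (n : ℝ) ≠ 0 := by linarith
  have hn2 : (n : ℝ) + 1 ≠ 0 := by linarith
  have e1 : ((n - 1 : ℕ) : ℝ) * (2 / (((n : ℝ) + 1) * n * ((n : ℝ) - 1))) =
      2 / ((((n + 1 : ℕ) : ℝ)) * (((n + 1 : ℕ) : ℝ) - 1)) := by
    rw [hn1]; push_cast
    rw [add_sub_cancel_right]
    field_simp
  have e2 : ((n + 1 : ℕ) : ℝ) * (2 / (((n : ℝ) + 1) * n * ((n : ℝ) - 1))) =
      2 / ((n : ℝ) * ((n : ℝ) - 1)) := by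
    push_cast
    field_simp
  rw [e1, e2] at h2
  exact h2

/-- The `n`-th diameters of a compact set converge (Fekete). -/
theorem tendsto_nthDiam {E : Set ℂ} (hE : IsCompact E) :
    Tendsto (nthDiam E) atTop (𝓝 (logCapacity E)) := by
  have hanti : Antitone (fun n : ℕ => nthDiam E (n + 2)) :=
    antitone_nat_of_succ_le (fun n => nthDiam_succ_le hE (by omega))
  have hb : BddBelow (Set.range (fun n : ℕ => nthDiam E (n + 2))) :=
    ⟨0, by rintro _ ⟨n, rfl⟩; exact nthDiam_nonneg E _⟩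
  have h := tendsto_atTop_ciInf hanti hb
  have h' := (tendsto_add_atTop_iff_nat (f := nthDiam E) 2).1 h
  exact tendsto_nhds_limUnder ⟨_, h'⟩

/-- Chebyshev: a monic real polynomial of degree `k ≥ 1` has modulus at least `2^(1-k)` somewhere
on `[-1,1]`. -/
theorem exists_abs_eval_ge {p : ℝ[X]} (hp : p.Monic) {k : ℕ} (hk : p.natDegree = k) :
    ∃ x ∈ Set.Icc (-1 : ℝ) 1, 1 ≤ 2 ^ (k - 1) * |p.eval x| := by
  have hc : IsCompact (Set.Icc (-1 : ℝ) 1) := isCompact_Icc
  obtain ⟨x, hx, hmax⟩ := hc.exists_isMaxOn ⟨0, by norm_num⟩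
    (f := fun x => |p.eval x|) (by fun_prop)
  refine ⟨x, hx, ?_⟩
  have hpos : 0 < |p.eval x| := by
    by_contra hcon
    have h0 : |p.eval x| = 0 := le_antisymm (not_lt.1 hcon) (abs_nonneg _)
    have hall : ∀ y ∈ Set.Icc (-1 : ℝ) 1, p.eval y = 0 := by
      intro y hy
      have := hmax hy
      simp only [Set.mem_ofPred_eq] at this
      rw [h0] at this
      exact abs_eq_zero.1 (le_antisymm this (abs_nonneg _))
    have : p = 0 := by
      apply Polynomial.eq_zero_of_infinite_isRoot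
      refine Set.Infinite.mono (s := Set.Icc (-1 : ℝ) 1) hall ?_
      exact Set.Icc_infinite (by norm_num)
    exact hp.ne_zero this
  have h := Polynomial.Chebyshev.leadingCoeff_le_of_forall_abs_le_one (n := k)
    (P := C (|p.eval x|)⁻¹ * p) ?_ ?_
  · rw [leadingCoeff_mul, leadingCoeff_C, hp.leadingCoeff, mul_one] at h
    have : |p.eval x|⁻¹ * |p.eval x| ≤ 2 ^ (k - 1) * |p.eval x| := by gcongr
    rwa [inv_mul_cancel₀ hpos.ne'] at this
  · rw [degree_C_mul (inv_ne_zero hpos.ne'), ← hk]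
    exact degree_le_natDegree
  · intro y hy
    rw [eval_mul, eval_C, abs_mul, abs_inv, abs_abs]
    have := hmax hy
    simp only [Set.mem_ofPred_eq] at this
    rw [inv_mul_le_iff₀ hpos, mul_one]
    exact this

theorem exists_points (k : ℕ) : ∃ x : Fin k → ℝ, (∀ i, x i ∈ Set.Icc (-1 : ℝ) 1) ∧
    1 ≤ 2 ^ ((k - 1) * (k - 2) / 2) * distProd (fun i => (x i : ℂ)) := by
  induction k with
  | zero => exact ⟨fun _ => 0, fun i => i.elim0, by simp [distProd]⟩
  | succ k ih =>
    obtain ⟨x, hx, h1⟩ := ih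
    have hmon : (∏ j : Fin k, (X - C (x j))).Monic :=
      monic_prod_of_monic _ _ (fun j _ => monic_X_sub_C _)
    have hdeg : (∏ j : Fin k, (X - C (x j))).natDegree = k := by
      rw [natDegree_prod_of_monic _ _ (fun j _ => monic_X_sub_C _)]
      simp
    obtain ⟨y, hy, h2⟩ := exists_abs_eval_ge hmon hdeg
    refine ⟨Fin.cons y x, ?_, ?_⟩
    · intro i
      refine Fin.cases ?_ (fun j => ?_) i
      · simpa using hy
      · simpa using hx j
    · have e : (fun i => (((Fin.cons y x : Fin (k + 1) → ℝ) i : ℝ) : ℂ)) =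
          (Fin.cons (y : ℂ) (fun i => (x i : ℂ)) : Fin (k + 1) → ℂ) := by
        ext i
        refine Fin.cases ?_ (fun j => ?_) i <;> simp
      rw [e, distProd_cons]
      have e2 : |eval y (∏ j : Fin k, (X - C (x j)))| = ∏ j, ‖(y : ℂ) - (x j : ℂ)‖ := by
        rw [eval_prod, Finset.abs_prod]
        refine Finset.prod_congr rfl fun j _ => ?_
        rw [← Complex.ofReal_sub, Complex.norm_real, Real.norm_eq_abs]
        simp
      rw [e2] at h2
      have e3 : 2 ^ ((k + 1 - 1) * (k + 1 - 2) / 2) =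
          (2 : ℝ) ^ (k - 1) * 2 ^ ((k - 1) * (k - 2) / 2) := by
        rw [← pow_add]
        congr 1
        rcases k with _ | _ | k
        · rfl
        · rfl
        · simp only [Nat.add_sub_cancel]
          have : k + 1 + 1 + 1 - 2 = k + 1 := by omega
          rw [this]
          have h4 : k + 1 + 1 - 2 = k := by omega
          rw [h4]
          have : (k + 1 + 1) * (k + 1) = (k + 1) * k + (k + 1) * 2 := by ring
          rw [this, Nat.add_mul_div_right _ _ (by norm_num)]
          ring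
      rw [e3]
      have h5 : 0 ≤ distProd (fun i => (x i : ℂ)) := distProd_nonneg _
      calc (1 : ℝ) = 1 * 1 := by ring
        _ ≤ (2 ^ (k - 1) * ∏ j, ‖(y : ℂ) - (x j : ℂ)‖) *
            (2 ^ ((k - 1) * (k - 2) / 2) * distProd (fun i => (x i : ℂ))) := by
          apply mul_le_mul h2 h1 (by norm_num)
          exact le_trans zero_le_one h2
        _ = _ := by ring

/-- A compact set containing the segment `[-1,1]` has `n`-th diameters at least `1/2`. -/
theorem half_le_nthDiam {E : Set ℂ} (hE : IsCompact E)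
    (hseg : ∀ x : ℝ, x ∈ Set.Icc (-1 : ℝ) 1 → (x : ℂ) ∈ E) {n : ℕ} (hn : 2 ≤ n) :
    1 / 2 ≤ nthDiam E n := by
  obtain ⟨x, hx, h1⟩ := exists_points n
  have h2 : distProd (fun i => (x i : ℂ)) ≤ maxDistProd E n :=
    le_maxDistProd hE (fun i => hseg _ (hx i))
  have hn' : (2 : ℝ) ≤ n := by exact_mod_cast hn
  have hnn : (0 : ℝ) < (n : ℝ) * ((n : ℝ) - 1) := by
    apply mul_pos <;> linarith
  have h3 : ((1 : ℝ) / 2) ^ ((n : ℝ) * ((n : ℝ) - 1) / 2) ≤ maxDistProd E n := by
    refine le_trans ?_ h2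
    set m : ℕ := (n - 1) * (n - 2) / 2 with hm
    have hm2 : (m : ℝ) ≤ (n : ℝ) * ((n : ℝ) - 1) / 2 := by
      have : m * 2 ≤ n * (n - 1) := by
        rw [hm]
        refine (Nat.div_mul_le_self _ _).trans ?_
        rw [mul_comm]
        exact Nat.mul_le_mul (by omega) le_rfl
      have h4 : ((m * 2 : ℕ) : ℝ) ≤ ((n * (n - 1) : ℕ) : ℝ) := by exact_mod_cast this
      push_cast [Nat.cast_sub (by omega : 1 ≤ n)] at h4
      linarith
    have h5 : ((1 : ℝ) / 2) ^ ((n : ℝ) * ((n : ℝ) - 1) / 2) ≤ ((1 : ℝ) / 2) ^ (m : ℝ) :=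
      Real.rpow_le_rpow_of_exponent_ge (by norm_num) (by norm_num) hm2
    refine h5.trans ?_
    rw [Real.rpow_natCast, one_div, inv_pow, inv_le_iff_one_le_mul₀ (by positivity)]
    linarith
  unfold nthDiam
  have h6 := Real.rpow_le_rpow (by positivity) h3
    (show (0 : ℝ) ≤ 2 / ((n : ℝ) * ((n : ℝ) - 1)) by positivity)
  rw [← Real.rpow_mul (by norm_num)] at h6
  have e : (n : ℝ) * ((n : ℝ) - 1) / 2 * (2 / ((n : ℝ) * ((n : ℝ) - 1))) = 1 := by
    have h7 : (n : ℝ) - 1 ≠ 0 := by intro h; linarith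
    have h8 : (n : ℝ) ≠ 0 := by intro h; linarith
    field_simp
  rw [e, Real.rpow_one] at h6
  exact h6

theorem half_le_logCapacity {E : Set ℂ} (hE : IsCompact E)
    (hseg : ∀ x : ℝ, x ∈ Set.Icc (-1 : ℝ) 1 → (x : ℂ) ∈ E) : 1 / 2 ≤ logCapacity E :=
  ge_of_tendsto (tendsto_nthDiam hE)
    (Filter.eventually_atTop.2 ⟨2, fun _ hn => half_le_nthDiam hE hseg hn⟩)

end Pool.Agent.TH962.Cap
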