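import Mathlib

/-!
Lower bound for the probability that the Gaussian entire function has no zero in the rectangle
`[-r,r] × [-εr, εr]`: force the coefficients to be close to those of `exp (z^2/2)`.
-/

set_option autoImplicit false

open Filter Topology Set MeasureTheory ProbabilityTheory
open scoped ENNReal

namespace Pool.Agent.TH962.Gef

/-- The standard complex Gaussian law, of density `π⁻¹ exp (-|w|²)`. -/
noncomputable def stdGaussian : Measure ℂ :=
  (volume : Measure ℂ).withDensity (fun w => ENNReal.ofReal (Real.exp (-‖w‖ ^ 2) / Real.pi))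

/-- The Gaussian entire function with coefficients `ξ`: `f(z) = ∑ ξ_n z^n / √(n!)`. -/
noncomputable def gef (ξ : ℕ → ℂ) (z : ℂ) : ℂ :=
  ∑' n : ℕ, ξ n * z ^ n / (Real.sqrt (n.factorial : ℝ) : ℂ)

/-! ### Deterministic part -/

lemma pow_div_sqrt_le (x : ℝ) (hx : 0 ≤ x) (n : ℕ) :
    x ^ n / Real.sqrt (n.factorial : ℝ) ≤ Real.exp (x ^ 2 / 2) := by
  have h1 : (x ^ 2) ^ n / (n.factorial : ℝ) ≤ Real.exp (x ^ 2) := by
    have h := Real.sum_le_exp_of_nonneg (x := x ^ 2) (by positivity) (n + 1)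
    refine le_trans ?_ h
    exact Finset.single_le_sum (f := fun i => (x ^ 2) ^ i / (i.factorial : ℝ))
      (fun i _ => by positivity) (Finset.mem_range.2 (Nat.lt_succ_self n))
  have h2 : (x ^ n / Real.sqrt (n.factorial : ℝ)) ^ 2 ≤ (Real.exp (x ^ 2 / 2)) ^ 2 := by
    rw [div_pow, Real.sq_sqrt (by positivity), ← Real.exp_nat_mul]
    have e1 : (x ^ n) ^ 2 = (x ^ 2) ^ n := by ring
    have e2 : ((2 : ℕ) : ℝ) * (x ^ 2 / 2) = x ^ 2 := by push_cast; ring
    rw [e1, e2]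
    exact h1
  exact (sq_le_sq₀ (by positivity) (Real.exp_pos _).le).1 h2

lemma two_pow_mul_le (x : ℝ) (hx : 0 ≤ x) (n : ℕ) :
    2 ^ n * (x ^ n / Real.sqrt (n.factorial : ℝ)) ≤ (1 / 2) ^ n * Real.exp (8 * x ^ 2) := by
  have h := pow_div_sqrt_le (4 * x) (by positivity) n
  have e : (4 * x) ^ 2 / 2 = 8 * x ^ 2 := by ring
  rw [e] at h
  have e2 : 2 ^ n * (x ^ n / Real.sqrt (n.factorial : ℝ)) =
      (1 / 2) ^ n * ((4 * x) ^ n / Real.sqrt (n.factorial : ℝ)) := by
    rw [mul_pow, one_div, inv_pow]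
    have : (4 : ℝ) ^ n = 2 ^ n * 2 ^ n := by rw [← mul_pow]; norm_num
    rw [this]
    field_simp
  rw [e2]
  gcongr

/-- The normalised Taylor coefficients of `exp (z^2/2)`. -/
noncomputable def aCoef (n : ℕ) : ℝ :=
  if Even n then Real.sqrt (n.factorial : ℝ) / (2 ^ (n / 2) * ((n / 2).factorial : ℝ)) else 0

lemma aCoef_nonneg (n : ℕ) : 0 ≤ aCoef n := by
  unfold aCoef; split_ifs <;> positivity

lemma aCoef_le_one (n : ℕ) : aCoef n ≤ 1 := by
  unfold aCoef
  split_ifs with h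
  · obtain ⟨k, hk⟩ := h
    have hk2 : n / 2 = k := by omega
    have hk3 : n = 2 * k := by omega
    rw [hk2, hk3, div_le_one (by positivity)]
    apply Real.sqrt_le_iff.2 ⟨by positivity, ?_⟩
    have h1 : (2 * k).choose k * k.factorial * (2 * k - k).factorial = (2 * k).factorial :=
      Nat.choose_mul_factorial_mul_factorial (by omega)
    have h2 : (2 * k).choose k ≤ 2 ^ (2 * k) := Nat.choose_le_two_pow _ _
    have h3 : 2 * k - k = k := by omega
    rw [h3] at h1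
    have h4 : (2 * k).factorial ≤ 2 ^ (2 * k) * k.factorial * k.factorial := by
      rw [← h1]; gcongr
    have h5 : (((2 * k).factorial : ℕ) : ℝ) ≤ ((2 ^ (2 * k) * k.factorial * k.factorial : ℕ) : ℝ) := by
      exact_mod_cast h4
    refine h5.trans (le_of_eq ?_)
    push_cast
    ring
  · norm_num

lemma hasSum_aCoef (z : ℂ) :
    HasSum (fun n : ℕ => (aCoef n : ℂ) * z ^ n / (Real.sqrt (n.factorial : ℝ) : ℂ))
      (Complex.exp (z ^ 2 / 2)) := by
  have h := NormedSpace.expSeries_div_hasSum_exp (z ^ 2 / 2)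
  rw [← Complex.exp_eq_exp_ℂ] at h
  have hinj : Function.Injective (fun k : ℕ => 2 * k) := fun a b hab => by
    simpa using hab
  rw [← hinj.hasSum_iff]
  · convert! h using 1
    funext k
    have h2 : Even (2 * k) := even_two_mul k
    have h3 : 2 * k / 2 = k := by omega
    simp only [Function.comp_apply, aCoef, h2, if_true, h3]
    have h4 : (Real.sqrt ((2 * k).factorial : ℝ) : ℂ) ≠ 0 := by
      rw [Complex.ofReal_ne_zero]
      positivity
    have h5 : (k.factorial : ℂ) ≠ 0 := by exact_mod_cast k.factorial_ne_zero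
    rw [div_pow, pow_mul]
    push_cast
    field_simp
  · intro n hn
    have : ¬ Even n := by
      rintro ⟨k, hk⟩
      apply hn
      exact ⟨k, by simp; omega⟩
    simp [aCoef, this]

/-- If the coefficients are within `δ` (for `n < N`) and within `2^n` (for `n ≥ N`) of those of
`exp (z^2/2)`, then the function is close to `exp (z^2/2)`. -/
lemma norm_gef_sub_le (ξ : ℕ → ℂ) (N : ℕ) (δ : ℝ)
    (h1 : ∀ n < N, ‖ξ n - aCoef n‖ ≤ δ) (h2 : ∀ n, N ≤ n → ‖ξ n - aCoef n‖ ≤ 2 ^ n) (z : ℂ) :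
    ‖gef ξ z - Complex.exp (z ^ 2 / 2)‖ ≤
      N * (δ * Real.exp (‖z‖ ^ 2 / 2)) + 2 * (1 / 2) ^ N * Real.exp (8 * ‖z‖ ^ 2) := by
  set x := ‖z‖ with hx
  have hx0 : 0 ≤ x := norm_nonneg z
  set b : ℕ → ℝ := fun n => if n < N then δ * Real.exp (x ^ 2 / 2)
    else (1 / 2) ^ n * Real.exp (8 * x ^ 2) with hb
  have hbs : HasSum b (2 * (1 / 2) ^ N * Real.exp (8 * x ^ 2) +
      ∑ i ∈ Finset.range N, b i) := by
    rw [← hasSum_nat_add_iff N]
    have : (fun n => b (n + N)) = fun n => (1 / 2 : ℝ) ^ n * ((1 / 2) ^ N * Real.exp (8 * x ^ 2)) := by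
      funext n
      have : ¬ (n + N < N) := by omega
      simp only [hb, this, if_false, pow_add]
      ring
    rw [this]
    have h := hasSum_geometric_two.mul_right ((1 / 2 : ℝ) ^ N * Real.exp (8 * x ^ 2))
    convert! h using 1
    ring
  have hsum : ∑ i ∈ Finset.range N, b i = N * (δ * Real.exp (x ^ 2 / 2)) := by
    rw [Finset.sum_congr rfl (g := fun _ => δ * Real.exp (x ^ 2 / 2))]
    · simp
    · intro i hi
      simp [hb, Finset.mem_range.1 hi]
  rw [hsum] at hbs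
  have hbd : ∀ n, ‖(ξ n - aCoef n) * z ^ n / (Real.sqrt (n.factorial : ℝ) : ℂ)‖ ≤ b n := by
    intro n
    rw [norm_div, norm_mul, norm_pow, Complex.norm_real, Real.norm_of_nonneg (Real.sqrt_nonneg _),
      ← hx, mul_div_assoc]
    by_cases hn : n < N
    · simp only [hb, hn, if_true]
      exact mul_le_mul (h1 n hn) (pow_div_sqrt_le x hx0 n) (by positivity)
        ((norm_nonneg _).trans (h1 n hn))
    · simp only [hb, hn, if_false]
      refine le_trans ?_ (two_pow_mul_le x hx0 n)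
      exact mul_le_mul_of_nonneg_right (h2 n (not_lt.1 hn)) (by positivity)
  have hs : Summable (fun n => (ξ n - aCoef n) * z ^ n / (Real.sqrt (n.factorial : ℝ) : ℂ)) :=
    Summable.of_norm_bounded hbs.summable hbd
  have ha := hasSum_aCoef z
  have hg : HasSum (fun n => ξ n * z ^ n / (Real.sqrt (n.factorial : ℝ) : ℂ))
      ((∑' n, (ξ n - aCoef n) * z ^ n / (Real.sqrt (n.factorial : ℝ) : ℂ)) +
        Complex.exp (z ^ 2 / 2)) := by
    convert! hs.hasSum.add ha using 1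
    funext n
    ring
  have e : gef ξ z - Complex.exp (z ^ 2 / 2) =
      ∑' n, (ξ n - aCoef n) * z ^ n / (Real.sqrt (n.factorial : ℝ) : ℂ) := by
    unfold gef
    rw [hg.tsum_eq]
    ring
  rw [e]
  refine (tsum_of_norm_bounded hbs hbd).trans (le_of_eq ?_)
  ring

lemma norm_exp_sq (z : ℂ) :
    ‖Complex.exp (z ^ 2 / 2)‖ = Real.exp (‖z‖ ^ 2 / 2 - z.im ^ 2) := by
  rw [Complex.norm_exp]
  congr 1
  have h : ‖z‖ ^ 2 = z.re ^ 2 + z.im ^ 2 := by
    rw [← Complex.normSq_eq_norm_sq, Complex.normSq_apply]; ring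
  rw [h]
  have : (z ^ 2 / 2).re = (z ^ 2).re / 2 := by
    rw [show (2 : ℂ) = ((2 : ℝ) : ℂ) by norm_num, Complex.div_ofReal_re]
  rw [this, sq z, Complex.mul_re]
  ring

/-- No zero in the rectangle. -/
lemma gef_ne_zero (ξ : ℕ → ℂ) {ε r : ℝ} (hε1 : ε ≤ 1) (hε : 0 < ε) (hr : 1 ≤ r) (N : ℕ)
    (hN : 32 * r ^ 2 ≤ N) (hN2 : 2 * (N : ℝ) < Real.exp (ε ^ 2 * r ^ 2))
    (h1 : ∀ n < N, ‖ξ n - aCoef n‖ ≤ Real.exp (-(2 * ε ^ 2 * r ^ 2)))
    (h2 : ∀ n, N ≤ n → ‖ξ n - aCoef n‖ ≤ 2 ^ n) (z : ℂ) (hre : |z.re| ≤ r)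
    (him : |z.im| ≤ ε * r) : gef ξ z ≠ 0 := by
  intro h0
  have h := norm_gef_sub_le ξ N _ h1 h2 z
  rw [h0, zero_sub, norm_neg, norm_exp_sq] at h
  have hy : z.im ^ 2 ≤ ε ^ 2 * r ^ 2 := by
    rw [← sq_abs z.im, ← mul_pow]
    exact pow_le_pow_left₀ (abs_nonneg _) him 2
  have hx : z.re ^ 2 ≤ r ^ 2 := by
    rw [← sq_abs z.re]
    exact pow_le_pow_left₀ (abs_nonneg _) hre 2
  have hz : ‖z‖ ^ 2 = z.re ^ 2 + z.im ^ 2 := by
    rw [← Complex.normSq_eq_norm_sq, Complex.normSq_apply]; ring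
  have hε2 : ε ^ 2 ≤ 1 := pow_le_one₀ hε.le hε1
  have hr2 : 1 ≤ r ^ 2 := one_le_pow₀ hr
  have hz2 : ‖z‖ ^ 2 ≤ 2 * r ^ 2 := by
    have : ε ^ 2 * r ^ 2 ≤ r ^ 2 := by nlinarith
    rw [hz]; linarith
  set u := Real.exp (‖z‖ ^ 2 / 2) with hu
  have hu1 : 1 ≤ u := by
    rw [hu]; exact Real.one_le_exp (by positivity)
  set v := Real.exp (-(ε ^ 2 * r ^ 2)) with hv
  have hv0 : 0 < v := Real.exp_pos _
  have hlow : u * v ≤ Real.exp (‖z‖ ^ 2 / 2 - z.im ^ 2) := by
    rw [hu, hv, ← Real.exp_add]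
    exact Real.exp_le_exp.2 (by linarith)
  have hA : N * (Real.exp (-(2 * ε ^ 2 * r ^ 2)) * u) < 1 / 2 * (u * v) := by
    have e1 : Real.exp (-(2 * ε ^ 2 * r ^ 2)) = v * v := by
      rw [hv, ← Real.exp_add]; congr 1; ring
    have e2 : Real.exp (ε ^ 2 * r ^ 2) * v = 1 := by
      rw [hv, ← Real.exp_add]; simp
    have e3 : 2 * (N : ℝ) * v < 1 := by
      calc 2 * (N : ℝ) * v < Real.exp (ε ^ 2 * r ^ 2) * v := by gcongr
        _ = 1 := e2
    rw [e1]
    have : 0 < u * v := by positivity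
    nlinarith
  have hB : 2 * (1 / 2) ^ N * Real.exp (8 * ‖z‖ ^ 2) ≤ 1 / 2 * (u * v) := by
    have e1 : ((1 : ℝ) / 2) ^ N ≤ Real.exp (-(22 * r ^ 2)) := by
      have e4 : ((1 : ℝ) / 2) ^ N = Real.exp (-(N * Real.log 2)) := by
        rw [Real.exp_neg, Real.exp_nat_mul, Real.exp_log (by norm_num), one_div, inv_pow]
      rw [e4]
      apply Real.exp_le_exp.2
      have := Real.log_two_gt_d9
      nlinarith
    have e2 : Real.exp (8 * ‖z‖ ^ 2) ≤ Real.exp (16 * r ^ 2) :=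
      Real.exp_le_exp.2 (by linarith)
    have e3 : 4 * Real.exp (-(6 * r ^ 2)) ≤ v := by
      have h4 : (4 : ℝ) ≤ Real.exp (5 * r ^ 2) := by
        have := Real.add_one_le_exp (5 * r ^ 2)
        linarith
      calc 4 * Real.exp (-(6 * r ^ 2)) ≤ Real.exp (5 * r ^ 2) * Real.exp (-(6 * r ^ 2)) := by gcongr
        _ = Real.exp (-(r ^ 2)) := by rw [← Real.exp_add]; congr 1; ring
        _ ≤ v := by
          rw [hv]
          apply Real.exp_le_exp.2
          nlinarith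
    calc 2 * (1 / 2) ^ N * Real.exp (8 * ‖z‖ ^ 2)
        ≤ 2 * Real.exp (-(22 * r ^ 2)) * Real.exp (16 * r ^ 2) := by gcongr
      _ = 1 / 2 * (4 * Real.exp (-(6 * r ^ 2))) := by
        rw [mul_assoc, ← Real.exp_add]
        have : -(22 * r ^ 2) + 16 * r ^ 2 = -(6 * r ^ 2) := by ring
        rw [this]; ring
      _ ≤ 1 / 2 * v := by gcongr
      _ ≤ 1 / 2 * (u * v) := by nlinarith
  linarith

/-! ### Gaussian estimates -/

lemma integral_exp_neg_mul_sq {b : ℝ} (hb : 0 < b) :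
    ∫ w : ℂ, Real.exp (-b * ‖w‖ ^ 2) = Real.pi / b := by
  have h := GaussianFourier.integral_rexp_neg_mul_sq_norm (V := ℂ) hb
  rw [h, Complex.finrank_real_complex]
  norm_num

lemma integrable_exp_neg_mul_sq {b : ℝ} (hb : 0 < b) :
    Integrable (fun w : ℂ => Real.exp (-b * ‖w‖ ^ 2)) := by
  by_contra hcon
  have h := integral_undef hcon
  rw [integral_exp_neg_mul_sq hb] at h
  have : 0 < Real.pi / b := by positivity
  linarith

lemma lintegral_gauss {b : ℝ} (hb : 0 < b) :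
    ∫⁻ w : ℂ, ENNReal.ofReal (Real.exp (-b * ‖w‖ ^ 2) / Real.pi) = ENNReal.ofReal (1 / b) := by
  rw [← ofReal_integral_eq_lintegral_ofReal]
  · congr 1
    rw [integral_div, integral_exp_neg_mul_sq hb]
    have := Real.pi_pos.ne'
    field_simp
  · exact (integrable_exp_neg_mul_sq hb).div_const _
  · exact Eventually.of_forall fun w => by positivity

instance : IsProbabilityMeasure stdGaussian := by
  constructor
  unfold stdGaussian
  rw [withDensity_apply _ MeasurableSet.univ, Measure.restrict_univ]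
  have h := lintegral_gauss (b := 1) one_pos
  simpa using h

lemma stdGaussian_closedBall_ge (a : ℂ) (ha : ‖a‖ ≤ 1) {δ : ℝ} (hδ : 0 < δ) (hδ1 : δ ≤ 1) :
    δ ^ 2 * Real.exp (-4) ≤ stdGaussian.real (Metric.closedBall a δ) := by
  have h : ENNReal.ofReal (δ ^ 2 * Real.exp (-4)) ≤ stdGaussian (Metric.closedBall a δ) := by
    unfold stdGaussian
    rw [withDensity_apply _ measurableSet_closedBall]
    have h1 : ∫⁻ _w in Metric.closedBall a δ, ENNReal.ofReal (Real.exp (-4) / Real.pi) ≤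
        ∫⁻ w in Metric.closedBall a δ, ENNReal.ofReal (Real.exp (-‖w‖ ^ 2) / Real.pi) := by
      apply setLIntegral_mono' measurableSet_closedBall
      intro w hw
      apply ENNReal.ofReal_le_ofReal
      gcongr
      rw [Metric.mem_closedBall, dist_eq_norm] at hw
      have : ‖w‖ ≤ 2 := by
        calc ‖w‖ = ‖(w - a) + a‖ := by ring_nf
          _ ≤ ‖w - a‖ + ‖a‖ := norm_add_le _ _
          _ ≤ 2 := by linarith
      nlinarith [norm_nonneg w]
    refine le_trans (le_of_eq ?_) h1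
    rw [setLIntegral_const, Complex.volume_closedBall]
    have hpi : (NNReal.pi : ℝ≥0∞) = ENNReal.ofReal Real.pi := by
      rw [← NNReal.coe_real_pi, ENNReal.ofReal_coe_nnreal]
    rw [hpi, ← ENNReal.ofReal_pow hδ.le, ← ENNReal.ofReal_mul (by positivity),
      ← ENNReal.ofReal_mul (by positivity)]
    congr 1
    have := Real.pi_pos.ne'
    field_simp
  unfold Measure.real
  rw [← ENNReal.ofReal_le_iff_le_toReal (measure_ne_top _ _)]
  exact h

lemma stdGaussian_tail (a : ℂ) (ha : ‖a‖ ≤ 1) (n : ℕ) (hn : 1 ≤ n) :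
    1 - 16 * (1 / 4) ^ n ≤ stdGaussian.real (Metric.closedBall a (2 ^ n)) := by
  have hc : stdGaussian.real (Metric.closedBall a (2 ^ n))ᶜ ≤ 16 * (1 / 4) ^ n := by
    have h : stdGaussian (Metric.closedBall a (2 ^ n))ᶜ ≤ ENNReal.ofReal (16 * (1 / 4) ^ n) := by
      unfold stdGaussian
      rw [withDensity_apply _ measurableSet_closedBall.compl]
      obtain ⟨m, rfl⟩ : ∃ m, n = m + 1 := ⟨n - 1, by omega⟩
      have h1 : ∫⁻ w in (Metric.closedBall a (2 ^ (m + 1)))ᶜ,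
          ENNReal.ofReal (Real.exp (-‖w‖ ^ 2) / Real.pi) ≤
          ∫⁻ w in (Metric.closedBall a (2 ^ (m + 1)))ᶜ,
          ENNReal.ofReal (Real.exp (-(4 ^ m / 2))) *
            ENNReal.ofReal (Real.exp (-(1 / 2) * ‖w‖ ^ 2) / Real.pi) := by
        apply setLIntegral_mono' measurableSet_closedBall.compl
        intro w hw
        rw [← ENNReal.ofReal_mul (by positivity)]
        apply ENNReal.ofReal_le_ofReal
        rw [← mul_div_assoc, ← Real.exp_add]
        gcongr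
        rw [Set.mem_compl_iff, Metric.mem_closedBall, dist_eq_norm, not_le] at hw
        have h2 : (2 : ℝ) ^ m ≤ ‖w‖ := by
          have : ‖w - a‖ ≤ ‖w‖ + ‖a‖ := norm_sub_le _ _
          have h3 : (1 : ℝ) ≤ 2 ^ m := one_le_pow₀ (by norm_num)
          rw [pow_succ] at hw
          linarith
        have h4 : (4 : ℝ) ^ m ≤ ‖w‖ ^ 2 := by
          have : (4 : ℝ) ^ m = (2 ^ m) ^ 2 := by rw [← pow_mul, mul_comm, pow_mul]; norm_num
          rw [this]
          exact pow_le_pow_left₀ (by positivity) h2 2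
        linarith
      refine h1.trans ?_
      refine (setLIntegral_le_lintegral _ _).trans ?_
      rw [lintegral_const_mul' _ _ ENNReal.ofReal_ne_top, lintegral_gauss (by norm_num),
        ← ENNReal.ofReal_mul (by positivity)]
      apply ENNReal.ofReal_le_ofReal
      have h5 : Real.exp (-(4 ^ m / 2)) ≤ 2 / 4 ^ m := by
        have h6 := Real.add_one_le_exp ((4 : ℝ) ^ m / 2)
        have h7 : (0 : ℝ) < 4 ^ m / 2 := by positivity
        rw [Real.exp_neg, show (2 : ℝ) / 4 ^ m = (4 ^ m / 2)⁻¹ by rw [inv_div]]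
        apply inv_anti₀ h7
        linarith
      calc Real.exp (-(4 ^ m / 2)) * (1 / (1 / 2)) ≤ 2 / 4 ^ m * (1 / (1 / 2)) := by gcongr
        _ = 16 * (1 / 4) ^ (m + 1) := by
          rw [one_div_pow, pow_succ]
          field_simp
          norm_num
    unfold Measure.real
    exact ENNReal.toReal_le_of_le_ofReal (by positivity) h
  have h := measureReal_compl (μ := stdGaussian) (s := Metric.closedBall a (2 ^ n))
    measurableSet_closedBall
  rw [h, probReal_univ] at hc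
  linarith

lemma prod_ge_one_sub_sum (s : Finset ℕ) (q t : ℕ → ℝ) (hq0 : ∀ n ∈ s, 0 ≤ q n)
    (hq1 : ∀ n ∈ s, q n ≤ 1) (ht : ∀ n ∈ s, 1 - t n ≤ q n) :
    1 - ∑ n ∈ s, t n ≤ ∏ n ∈ s, q n := by
  classical
  induction s using Finset.induction_on with
  | empty => simp
  | insert a s ha ih =>
    rw [Finset.prod_insert ha, Finset.sum_insert ha]
    have ih' := ih (fun n hn => hq0 n (Finset.mem_insert_of_mem hn))
      (fun n hn => hq1 n (Finset.mem_insert_of_mem hn))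
      (fun n hn => ht n (Finset.mem_insert_of_mem hn))
    have h0 := hq0 a (Finset.mem_insert_self a s)
    have h1 := hq1 a (Finset.mem_insert_self a s)
    have h2 := ht a (Finset.mem_insert_self a s)
    have h3 : ∏ n ∈ s, q n ≤ 1 := Finset.prod_le_one
      (fun n hn => hq0 n (Finset.mem_insert_of_mem hn))
      (fun n hn => hq1 n (Finset.mem_insert_of_mem hn))
    have h4 : 0 ≤ ∏ n ∈ s, q n := Finset.prod_nonneg
      (fun n hn => hq0 n (Finset.mem_insert_of_mem hn))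
    nlinarith

/-- Probability that all the coefficients are in the prescribed discs. -/
lemma prob_ge {Ω : Type*} [MeasurableSpace Ω] (P : Measure Ω) [IsProbabilityMeasure P]
    (ξ : ℕ → Ω → ℂ) (hm : ∀ n, Measurable (ξ n)) (hi : iIndepFun ξ P)
    (hl : ∀ n, P.map (ξ n) = stdGaussian) (N : ℕ) (hN : 3 ≤ N) {δ : ℝ} (hδ : 0 < δ) (hδ1 : δ ≤ 1) :
    (δ ^ 2 * Real.exp (-4)) ^ N / 2 ≤
      P.real {ω | (∀ n < N, ‖ξ n ω - aCoef n‖ ≤ δ) ∧
        ∀ n, N ≤ n → ‖ξ n ω - aCoef n‖ ≤ 2 ^ n} := by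
  set c : ℕ → ℝ := fun n => if n < N then δ else 2 ^ n with hc
  set B : ℕ → Set ℂ := fun n => Metric.closedBall (aCoef n : ℂ) (c n) with hB
  set A : ℕ → Set Ω := fun M => ⋂ n ∈ Finset.range M, ξ n ⁻¹' B n with hA
  have ha1 : ∀ n, ‖(aCoef n : ℂ)‖ ≤ 1 := by
    intro n
    rw [Complex.norm_real, Real.norm_of_nonneg (aCoef_nonneg n)]
    exact aCoef_le_one n
  have hAm : ∀ M, MeasurableSet (A M) := by
    intro M
    apply Finset.measurableSet_biInter
    intro n _
    exact hm n measurableSet_closedBall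
  have hset : {ω | (∀ n < N, ‖ξ n ω - aCoef n‖ ≤ δ) ∧
        ∀ n, N ≤ n → ‖ξ n ω - aCoef n‖ ≤ 2 ^ n} = ⋂ M, A M := by
    ext ω
    simp only [Set.mem_ofPred_eq, Set.mem_iInter, hA, hB, Finset.mem_range, Set.mem_preimage,
      Metric.mem_closedBall, dist_eq_norm]
    constructor
    · rintro ⟨h1, h2⟩ M n _
      by_cases hn : n < N
      · simpa [hc, hn] using h1 n hn
      · simpa [hc, hn] using h2 n (not_lt.1 hn)
    · intro h
      refine ⟨fun n hn => ?_, fun n hn => ?_⟩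
      · simpa [hc, hn] using h (n + 1) n (Nat.lt_succ_self n)
      · simpa [hc, not_lt.2 hn] using h (n + 1) n (Nat.lt_succ_self n)
  have hanti : Antitone A := by
    intro M M' hMM'
    apply Set.iInter_mono
    intro n
    apply Set.iInter_mono'
    intro hn
    exact ⟨Finset.mem_range.2 (lt_of_lt_of_le (Finset.mem_range.1 hn) hMM'), le_rfl⟩
  have hval : ∀ M, P.real (A M) = ∏ n ∈ Finset.range M, stdGaussian.real (B n) := by
    intro M
    have h := hi.measure_inter_preimage_eq_mul (Finset.range M) (sets := B)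
      (fun n _ => measurableSet_closedBall)
    unfold Measure.real
    rw [hA]
    simp only
    rw [h, ENNReal.toReal_prod]
    refine Finset.prod_congr rfl fun n _ => ?_
    rw [← hl n, Measure.map_apply (hm n) measurableSet_closedBall]
  have hlow : ∀ M, N ≤ M → (δ ^ 2 * Real.exp (-4)) ^ N / 2 ≤ P.real (A M) := by
    intro M hM
    rw [hval M, ← Finset.prod_range_mul_prod_Ico _ hM]
    have h1 : (δ ^ 2 * Real.exp (-4)) ^ N ≤ ∏ n ∈ Finset.range N, stdGaussian.real (B n) := by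
      have := Finset.prod_le_prod (s := Finset.range N) (f := fun _ => δ ^ 2 * Real.exp (-4))
        (g := fun n => stdGaussian.real (B n)) (fun _ _ => by positivity) (fun n hn => by
          simp only [hB, hc, Finset.mem_range.1 hn, if_true]
          exact stdGaussian_closedBall_ge _ (ha1 n) hδ hδ1)
      simpa using this
    have h2 : 1 / 2 ≤ ∏ n ∈ Finset.Ico N M, stdGaussian.real (B n) := by
      have h3 := prod_ge_one_sub_sum (Finset.Ico N M) (fun n => stdGaussian.real (B n))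
        (fun n => 16 * (1 / 4) ^ n) (fun _ _ => measureReal_nonneg) (fun _ _ => measureReal_le_one)
        (fun n hn => by
          have hn' := Finset.mem_Ico.1 hn
          have : ¬ n < N := by omega
          simp only [hB, hc, this, if_false]
          exact stdGaussian_tail _ (ha1 n) n (by omega))
      refine le_trans ?_ h3
      have h4 : ∑ n ∈ Finset.Ico N M, 16 * ((1 : ℝ) / 4) ^ n ≤ 1 / 2 := by
        rw [← Finset.mul_sum]
        have h5 : ∑ n ∈ Finset.Ico N M, ((1 : ℝ) / 4) ^ n ≤ (1 / 4) ^ N / (1 - 1 / 4) :=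
          geom_sum_Ico_le_of_lt_one (by norm_num) (by norm_num)
        have h6 : ((1 : ℝ) / 4) ^ N ≤ (1 / 4) ^ 3 :=
          pow_le_pow_of_le_one (by norm_num) (by norm_num) hN
        calc 16 * ∑ n ∈ Finset.Ico N M, ((1 : ℝ) / 4) ^ n ≤ 16 * ((1 / 4) ^ N / (1 - 1 / 4)) := by gcongr
          _ ≤ 16 * ((1 / 4) ^ 3 / (1 - 1 / 4)) := by gcongr
          _ ≤ 1 / 2 := by norm_num
      linarith
    calc (δ ^ 2 * Real.exp (-4)) ^ N / 2 = (δ ^ 2 * Real.exp (-4)) ^ N * (1 / 2) := by ring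
      _ ≤ _ := by
        apply mul_le_mul h1 h2 (by norm_num)
        exact Finset.prod_nonneg fun _ _ => measureReal_nonneg
  rw [hset]
  have ht := tendsto_measure_iInter_atTop (μ := P) (s := A)
    (fun M => (hAm M).nullMeasurableSet) hanti ⟨0, measure_ne_top _ _⟩
  have ht' : Tendsto (fun M => P.real (A M)) atTop (𝓝 (P.real (⋂ M, A M))) :=
    (ENNReal.tendsto_toReal (measure_ne_top _ _)).comp ht
  exact ge_of_tendsto ht' (Filter.eventually_atTop.2 ⟨N, hlow⟩)

/-- The main lower bound for the hole probability of the rectangle `[-r,r] × [-εr,εr]`. -/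
theorem hole_ge {Ω : Type*} [MeasurableSpace Ω] (P : Measure Ω) [IsProbabilityMeasure P]
    (ξ : ℕ → Ω → ℂ) (hm : ∀ n, Measurable (ξ n)) (hi : iIndepFun ξ P)
    (hl : ∀ n, P.map (ξ n) = stdGaussian) {ε : ℝ} (hε : 0 < ε) (hε1 : ε ≤ 1) :
    ∀ᶠ r : ℝ in atTop, Real.exp (-(133 * ε ^ 2 * r ^ 4)) ≤
      P.real {ω | ∀ z : ℂ, |z.re| ≤ r → |z.im| ≤ ε * r → gef (fun n => ξ n ω) z ≠ 0} := by
  have hε2 : 0 < ε ^ 2 := by positivity
  filter_upwards [eventually_ge_atTop (1 : ℝ), eventually_ge_atTop (150 / ε ^ 2)] with r hr1 hr2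
  have hr0 : 0 < r := by linarith
  have hr2' : 150 ≤ r * ε ^ 2 := by rwa [div_le_iff₀ hε2] at hr2
  have hrr : 1 ≤ r ^ 2 := one_le_pow₀ hr1
  have hrε : 150 ≤ ε ^ 2 * r ^ 2 := by nlinarith
  have hrε2 : 150 * r ≤ ε ^ 2 * r ^ 2 := by nlinarith
  set N : ℕ := ⌈32 * r ^ 2⌉₊ with hNdef
  have hN1 : 32 * r ^ 2 ≤ N := Nat.le_ceil _
  have hN2 : (N : ℝ) < 32 * r ^ 2 + 1 := Nat.ceil_lt_add_one (by positivity)
  have hN3 : (N : ℝ) ≤ 33 * r ^ 2 := by linarith
  have hN4 : 3 ≤ N := by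
    have : (3 : ℝ) ≤ N := by linarith
    exact_mod_cast this
  have hexp : 2 * (N : ℝ) < Real.exp (ε ^ 2 * r ^ 2) := by
    have h1 := Real.quadratic_le_exp_of_nonneg (x := ε ^ 2 * r ^ 2) (by positivity)
    nlinarith
  have hδ : (0 : ℝ) < Real.exp (-(2 * ε ^ 2 * r ^ 2)) := Real.exp_pos _
  have hδ1 : Real.exp (-(2 * ε ^ 2 * r ^ 2)) ≤ 1 := Real.exp_le_one_iff.2 (by
    have : 0 ≤ 2 * ε ^ 2 * r ^ 2 := by positivity
    linarith)
  have h := prob_ge P ξ hm hi hl N hN4 hδ hδ1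
  have hmono : P.real {ω | (∀ n < N, ‖ξ n ω - aCoef n‖ ≤ Real.exp (-(2 * ε ^ 2 * r ^ 2))) ∧
        ∀ n, N ≤ n → ‖ξ n ω - aCoef n‖ ≤ 2 ^ n} ≤
      P.real {ω | ∀ z : ℂ, |z.re| ≤ r → |z.im| ≤ ε * r → gef (fun n => ξ n ω) z ≠ 0} := by
    apply measureReal_mono
    · rintro ω ⟨h1, h2⟩ z hre him
      exact gef_ne_zero _ hε1 hε hr1 N hN1 hexp h1 h2 z hre him
    · exact measure_ne_top _ _
  refine le_trans ?_ (h.trans hmono)
  have e1 : (Real.exp (-(2 * ε ^ 2 * r ^ 2)) ^ 2 * Real.exp (-4)) ^ N / 2 =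
      Real.exp (-(N * (4 * ε ^ 2 * r ^ 2 + 4) + Real.log 2)) := by
    rw [← Real.exp_nat_mul, ← Real.exp_add, ← Real.exp_nat_mul, neg_add, Real.exp_add,
      Real.exp_neg (Real.log 2), Real.exp_log (by norm_num), div_eq_mul_inv]
    congr 2
    push_cast
    ring
  rw [e1]
  apply Real.exp_le_exp.2
  have hlog : Real.log 2 ≤ 1 := by linarith [Real.log_two_lt_d9]
  have h5 : (N : ℝ) * (4 * ε ^ 2 * r ^ 2 + 4) ≤ 33 * r ^ 2 * (4 * ε ^ 2 * r ^ 2 + 4) := by gcongr
  have h6 : 132 * r ^ 2 + 1 ≤ ε ^ 2 * r ^ 4 := by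
    have : ε ^ 2 * r ^ 4 = (ε ^ 2 * r ^ 2) * r ^ 2 := by ring
    rw [this]
    nlinarith
  nlinarith

end Pool.Agent.TH962.Gef
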