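import Mathlib
import Pool.Agent.TH962.Gef

/-!
Measurability of the hole event of the Gaussian entire function in a compact set.
-/

set_option autoImplicit false

open Filter Topology Set MeasureTheory ProbabilityTheory
open scoped ENNReal

namespace Pool.Agent.TH962.Gef

variable {Ω : Type*} [MeasurableSpace Ω]

lemma ae_bound (P : Measure Ω) [IsProbabilityMeasure P]
    (ξ : ℕ → Ω → ℂ) (hm : ∀ n, Measurable (ξ n))
    (hl : ∀ n, P.map (ξ n) = stdGaussian) :
    ∀ᵐ ω ∂P, ∀ᶠ n in atTop, ‖ξ n ω‖ ≤ 2 ^ n := by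
  have hs : ∀ n, 1 ≤ n → P {ω | ¬ ‖ξ n ω‖ ≤ 2 ^ n} ≤ ENNReal.ofReal (16 * (1 / 4) ^ n) := by
    intro n hn
    have h1 : {ω | ¬ ‖ξ n ω‖ ≤ 2 ^ n} = ξ n ⁻¹' (Metric.closedBall (0 : ℂ) (2 ^ n))ᶜ := by
      ext ω; simp
    rw [h1, ← Measure.map_apply (hm n) measurableSet_closedBall.compl, hl n]
    have h := stdGaussian_tail 0 (by simp) n hn
    have h2 := measureReal_compl (μ := stdGaussian) (s := Metric.closedBall (0 : ℂ) (2 ^ n))
      measurableSet_closedBall
    rw [probReal_univ] at h2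
    have h3 : stdGaussian.real (Metric.closedBall (0 : ℂ) (2 ^ n))ᶜ ≤ 16 * (1 / 4) ^ n := by linarith
    unfold Measure.real at h3
    exact (ENNReal.le_ofReal_iff_toReal_le (measure_ne_top _ _) (by positivity)).2 h3
  have hsum : ∑' n, P {ω | ¬ ‖ξ (n + 1) ω‖ ≤ 2 ^ (n + 1)} ≠ ∞ := by
    have h1 : ∑' n, P {ω | ¬ ‖ξ (n + 1) ω‖ ≤ 2 ^ (n + 1)} ≤
        ∑' n : ℕ, ENNReal.ofReal (16 * (1 / 4) ^ (n + 1)) :=
      ENNReal.tsum_le_tsum fun n => hs (n + 1) (by omega)
    refine ne_top_of_le_ne_top ?_ h1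
    have hsm : Summable (fun n : ℕ => 16 * ((1 : ℝ) / 4) ^ (n + 1)) := by
      have := (summable_geometric_of_lt_one (r := (1 : ℝ) / 4) (by norm_num) (by norm_num))
      exact ((summable_nat_add_iff 1).2 this).mul_left 16
    rw [← ENNReal.ofReal_tsum_of_nonneg (fun n => by positivity) hsm]
    exact ENNReal.ofReal_ne_top
  have h := ae_eventually_notMem hsum
  filter_upwards [h] with ω hω
  have h2 : ∀ᶠ n in atTop, ‖ξ (n + 1) ω‖ ≤ 2 ^ (n + 1) := by
    filter_upwards [hω] with n hn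
    simpa using hn
  obtain ⟨N, hN⟩ := Filter.eventually_atTop.1 h2
  refine Filter.eventually_atTop.2 ⟨N + 1, fun n hn => ?_⟩
  obtain ⟨m, rfl⟩ : ∃ m, n = m + 1 := ⟨n - 1, by omega⟩
  exact hN m (by omega)

lemma summable_bound (ξ : ℕ → ℂ) (h : ∀ᶠ n in atTop, ‖ξ n‖ ≤ 2 ^ n) (R : ℝ) (hR : 0 ≤ R) :
    Summable (fun n => ‖ξ n‖ * (R ^ n / Real.sqrt (n.factorial : ℝ))) := by
  have hg : Summable (fun n : ℕ => (1 / 2 : ℝ) ^ n * Real.exp (8 * R ^ 2)) :=
    summable_geometric_two.mul_right _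
  refine Summable.of_norm_bounded_eventually_nat hg ?_
  filter_upwards [h] with n hn
  rw [Real.norm_of_nonneg (by positivity)]
  refine le_trans ?_ (two_pow_mul_le R hR n)
  gcongr

lemma continuousOn_gef (ξ : ℕ → ℂ) (h : ∀ᶠ n in atTop, ‖ξ n‖ ≤ 2 ^ n) (R : ℝ) (hR : 0 ≤ R) :
    ContinuousOn (gef ξ) (Metric.closedBall 0 R) := by
  unfold gef
  refine continuousOn_tsum (u := fun n => ‖ξ n‖ * (R ^ n / Real.sqrt (n.factorial : ℝ)))
    (fun n => by fun_prop) (summable_bound ξ h R hR) ?_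
  intro n z hz
  rw [norm_div, norm_mul, norm_pow, Complex.norm_real, Real.norm_of_nonneg (Real.sqrt_nonneg _),
    mul_div_assoc]
  have : ‖z‖ ≤ R := by simpa using hz
  gcongr

lemma aemeasurable_gef (P : Measure Ω) [IsProbabilityMeasure P]
    (ξ : ℕ → Ω → ℂ) (hm : ∀ n, Measurable (ξ n))
    (hl : ∀ n, P.map (ξ n) = stdGaussian) (z : ℂ) :
    AEMeasurable (fun ω => gef (fun n => ξ n ω) z) P := by
  refine aemeasurable_of_tendsto_metrizable_ae atTop
    (f := fun N ω => ∑ n ∈ Finset.range N, ξ n ω * z ^ n / (Real.sqrt (n.factorial : ℝ) : ℂ))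
    (fun N => ?_) ?_
  · apply Measurable.aemeasurable
    apply Finset.measurable_sum
    intro n _
    exact ((hm n).mul_const _).div_const _
  · filter_upwards [ae_bound P ξ hm hl] with ω hω
    have hs := summable_bound (fun n => ξ n ω) hω ‖z‖ (norm_nonneg z)
    have hs2 : Summable (fun n => ξ n ω * z ^ n / (Real.sqrt (n.factorial : ℝ) : ℂ)) := by
      refine Summable.of_norm_bounded hs ?_
      intro n
      rw [norm_div, norm_mul, norm_pow, Complex.norm_real,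
        Real.norm_of_nonneg (Real.sqrt_nonneg _), mul_div_assoc]
    exact hs2.hasSum.tendsto_sum_nat

/-- The hole event in a compact set is measurable up to a null set. -/
theorem nullMeasurable_hole (P : Measure Ω) [IsProbabilityMeasure P]
    (ξ : ℕ → Ω → ℂ) (hm : ∀ n, Measurable (ξ n))
    (hl : ∀ n, P.map (ξ n) = stdGaussian) {C : Set ℂ} (hC : IsCompact C) :
    NullMeasurableSet {ω | ∀ z ∈ C, gef (fun n => ξ n ω) z ≠ 0} P := by
  rcases C.eq_empty_or_nonempty with h | hne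
  · subst h
    simp
  obtain ⟨D, hDC, hDc, hDd⟩ := hC.isSeparable.exists_countable_dense_subset
  obtain ⟨R, hR0, hR⟩ : ∃ R : ℝ, 0 ≤ R ∧ C ⊆ Metric.closedBall 0 R := by
    obtain ⟨R, hR⟩ := hC.isBounded.subset_closedBall 0
    exact ⟨max R 0, le_max_right _ _, hR.trans (Metric.closedBall_subset_closedBall (le_max_left _ _))⟩
  have hmeas : NullMeasurableSet (⋃ k : ℕ, ⋂ z ∈ D, {ω | 1 / ((k : ℝ) + 1) ≤
      ‖gef (fun n => ξ n ω) z‖}) P := by
    apply NullMeasurableSet.iUnion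
    intro k
    apply NullMeasurableSet.biInter hDc
    intro z _
    have h1 := (aemeasurable_gef P ξ hm hl z).norm
    exact h1.nullMeasurable measurableSet_Ici
  refine hmeas.congr ?_
  filter_upwards [ae_bound P ξ hm hl] with ω hω
  have hcont := (continuousOn_gef (fun n => ξ n ω) hω R hR0).mono hR
  apply propext
  change ω ∈ (⋃ k : ℕ, ⋂ z ∈ D, {ω | 1 / ((k : ℝ) + 1) ≤ ‖gef (fun n => ξ n ω) z‖}) ↔
    ∀ z ∈ C, gef (fun n => ξ n ω) z ≠ 0
  simp only [Set.mem_iUnion, Set.mem_iInter, Set.mem_ofPred_eq]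
  constructor
  · rintro ⟨k, hk⟩ z hz h0
    have hz' : z ∈ closure D := hDd hz
    rw [mem_closure_iff_seq_limit] at hz'
    obtain ⟨x, hx, hxz⟩ := hz'
    have h1 : Tendsto (fun n => ‖gef (fun n => ξ n ω) (x n)‖) atTop
        (𝓝 ‖gef (fun n => ξ n ω) z‖) := by
      have h2 : Tendsto x atTop (𝓝[C] z) :=
        tendsto_nhdsWithin_iff.2 ⟨hxz, Eventually.of_forall fun n => hDC (hx n)⟩
      exact ((hcont z hz).tendsto.comp h2).norm
    have h3 : 1 / ((k : ℝ) + 1) ≤ ‖gef (fun n => ξ n ω) z‖ :=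
      ge_of_tendsto h1 (Eventually.of_forall fun n => hk _ (hx n))
    rw [h0, norm_zero] at h3
    have : (0 : ℝ) < 1 / ((k : ℝ) + 1) := by positivity
    linarith
  · intro h
    obtain ⟨z, hz, hmin⟩ := hC.exists_isMinOn hne hcont.norm
    have hpos : 0 < ‖gef (fun n => ξ n ω) z‖ := norm_pos_iff.2 (h z hz)
    obtain ⟨k, hk⟩ := exists_nat_one_div_lt hpos
    exact ⟨k, fun w hw => hk.le.trans (hmin (hDC hw))⟩

end Pool.Agent.TH962.Gef
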