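import Mathlib
import Pool.Agent.TH280.LS.StmC
import Pool.Agent.TH364.LSB_TPW

/-!
Job LSC-TPK: interpolation between the exponents 2 and 4 with the weights `ρ` and `κ`.
-/

set_option autoImplicit false

open MeasureTheory Set
open scoped ENNReal
open Pool.Agent.TH280.LS
open Pool.Agent.TH209.TP (GB Gb meas_Tm Tm_add gb_mc gb_ms nu lint_nu)
open Pool.Agent.TH364.TPW (tr1 tr2 tr_add meas_f adm1 adm2 ww measurable_ww mu lint_mu)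

namespace Pool.Agent.TH962.TPK

variable {m : ℕ}

/-- the product of the two weights -/
noncomputable def th (ρ κ : (Fin m → ℝ) → ℝ) (η : Fin m → ℝ) : ℝ := ρ η * κ η

lemma measurable_th {ρ κ : (Fin m → ℝ) → ℝ} (hρ : Measurable ρ) (hκ : Measurable κ) :
    Measurable (th ρ κ) := hρ.mul hκ

lemma th_nonneg {ρ κ : (Fin m → ℝ) → ℝ} (hρ0 : ∀ η, 0 ≤ ρ η) (hκ0 : ∀ η, 0 < κ η)
    (η : Fin m → ℝ) : 0 ≤ th ρ κ η := mul_nonneg (hρ0 η) (hκ0 η).le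

lemma pt1 {ρ κ : (Fin m → ℝ) → ℝ} (hρ0 : ∀ η, 0 ≤ ρ η) (hκ0 : ∀ η, 0 < κ η)
    (G : (Fin m → ℝ) → ℝ → ℂ) {l : ℝ} (hl : 0 < l) (η : Fin m → ℝ) (x : ℝ) :
    ww ρ (η, x) * {z : (Fin m → ℝ) × ℝ | l < th ρ κ z.1 * ‖G z.1 z.2‖}.indicator
      (fun z => ENNReal.ofReal (th ρ κ z.1 * ‖G z.1 z.2‖) ^ 2) (η, x) =
      ENNReal.ofReal (κ η ^ 2) * ‖tr1 (th ρ κ) G l η x‖ₑ ^ 2 := by
  by_cases h : l < th ρ κ η * ‖G η x‖
  · rw [indicator_of_mem (show (η, x) ∈ {z : (Fin m → ℝ) × ℝ | l < th ρ κ z.1 * ‖G z.1 z.2‖}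
      from h)]
    unfold tr1 ww
    rw [if_pos h, ← ofReal_norm,
      ← ENNReal.ofReal_pow (mul_nonneg (th_nonneg hρ0 hκ0 _) (norm_nonneg _)),
      ← ENNReal.ofReal_pow (norm_nonneg _), ← ENNReal.ofReal_mul (by positivity),
      ← ENNReal.ofReal_mul (by positivity)]
    have hP : ρ η ≠ 0 := by
      intro h0
      unfold th at h
      rw [h0, zero_mul, zero_mul] at h
      exact absurd (hl.trans h) (lt_irrefl _)
    congr 1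
    unfold th
    simp only
    field_simp
  · rw [indicator_of_notMem (show (η, x) ∉ {z : (Fin m → ℝ) × ℝ | l < th ρ κ z.1 * ‖G z.1 z.2‖}
      from h)]
    unfold tr1
    rw [if_neg h]
    simp

lemma pt2 {ρ κ : (Fin m → ℝ) → ℝ} (hρ0 : ∀ η, 0 ≤ ρ η) (hκ0 : ∀ η, 0 < κ η)
    (G : (Fin m → ℝ) → ℝ → ℂ) (l : ℝ) (η : Fin m → ℝ) (x : ℝ) :
    ww ρ (η, x) * {z : (Fin m → ℝ) × ℝ | th ρ κ z.1 * ‖G z.1 z.2‖ ≤ l}.indicator
      (fun z => ENNReal.ofReal (th ρ κ z.1 * ‖G z.1 z.2‖) ^ 4) (η, x) =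
      ENNReal.ofReal (ρ η ^ 2 * κ η ^ 4) * ‖tr2 (th ρ κ) G l η x‖ₑ ^ 4 := by
  by_cases h : th ρ κ η * ‖G η x‖ ≤ l
  · rw [indicator_of_mem (show (η, x) ∈ {z : (Fin m → ℝ) × ℝ | th ρ κ z.1 * ‖G z.1 z.2‖ ≤ l}
      from h)]
    unfold tr2 ww
    rw [if_pos h, ← ofReal_norm,
      ← ENNReal.ofReal_pow (mul_nonneg (th_nonneg hρ0 hκ0 _) (norm_nonneg _)),
      ← ENNReal.ofReal_pow (norm_nonneg _), ← ENNReal.ofReal_mul (by positivity),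
      ← ENNReal.ofReal_mul (by positivity)]
    congr 1
    unfold th
    simp only
    by_cases hP : ρ η = 0
    · rw [hP]; simp
    · field_simp
  · rw [indicator_of_notMem (show (η, x) ∉ {z : (Fin m → ℝ) × ℝ | th ρ κ z.1 * ‖G z.1 z.2‖ ≤ l}
      from h)]
    unfold tr2
    rw [if_neg h]
    simp

lemma pt3 {ρ κ : (Fin m → ℝ) → ℝ} (hρ0 : ∀ η, 0 ≤ ρ η) (hκ0 : ∀ η, 0 < κ η)
    (G : (Fin m → ℝ) → ℝ → ℂ) {p : ℝ} (hp : 2 < p) (η : Fin m → ℝ) (x : ℝ) :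
    ww ρ (η, x) * ENNReal.ofReal (th ρ κ η * ‖G η x‖) ^ p =
      ENNReal.ofReal (ρ η ^ (p - 2) * κ η ^ p) * ‖G η x‖ₑ ^ p := by
  unfold ww
  rw [← ofReal_norm,
    ENNReal.ofReal_rpow_of_nonneg (mul_nonneg (th_nonneg hρ0 hκ0 _) (norm_nonneg _))
    (by linarith), ENNReal.ofReal_rpow_of_nonneg (norm_nonneg _) (by linarith),
    ← ENNReal.ofReal_mul (by positivity),
    ← ENNReal.ofReal_mul (mul_nonneg (Real.rpow_nonneg (hρ0 _) _)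
      (Real.rpow_nonneg (hκ0 _).le _))]
  congr 1
  unfold th
  simp only
  by_cases hP : ρ η = 0
  · rw [hP, Real.zero_rpow (by linarith)]; simp
  · have hP' : 0 < ρ η := lt_of_le_of_ne (hρ0 _) (Ne.symm hP)
    rw [Real.mul_rpow (mul_nonneg hP'.le (hκ0 _).le) (norm_nonneg _),
      Real.mul_rpow hP'.le (hκ0 _).le, Real.rpow_sub hP', Real.rpow_two]
    field_simp

theorem interp (p : ℝ) (hp2 : 2 < p) (hp4 : p < 4) : ∃ C : ℝ, 0 < C ∧ ∀ (m : ℕ)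
    (ρ κ : (Fin m → ℝ) → ℝ), Measurable ρ → (∀ η, 0 ≤ ρ η) → Measurable κ → (∀ η, 0 < κ η) →
    ∀ (M : ℝ → ℝ → ℝ) (C2 C4 : ℝ), GB M → 0 < C2 → 0 < C4 →
    (∀ G : (Fin m → ℝ) → ℝ → ℂ, Adm m G →
      ∫⁻ t in Icc (1 : ℝ) 2, ∫⁻ x : ℝ, ∫⁻ y : Fin m → ℝ, ‖Tm m (M t) G y x‖ₑ ^ 2 ≤
        ENNReal.ofReal C2 * ∫⁻ x : ℝ, ∫⁻ η : Fin m → ℝ,
          ENNReal.ofReal (κ η ^ 2) * ‖G η x‖ₑ ^ 2) →
    (∀ G : (Fin m → ℝ) → ℝ → ℂ, Adm m G →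
      ∫⁻ t in Icc (1 : ℝ) 2, ∫⁻ x : ℝ, ∫⁻ y : Fin m → ℝ, ‖Tm m (M t) G y x‖ₑ ^ 4 ≤
        ENNReal.ofReal C4 * ∫⁻ x : ℝ, ∫⁻ η : Fin m → ℝ,
          ENNReal.ofReal (ρ η ^ 2 * κ η ^ 4) * ‖G η x‖ₑ ^ 4) →
    ∀ G : (Fin m → ℝ) → ℝ → ℂ, Adm m G →
      ∫⁻ t in Icc (1 : ℝ) 2, ∫⁻ x : ℝ, ∫⁻ y : Fin m → ℝ, ‖Tm m (M t) G y x‖ₑ ^ p ≤
        ENNReal.ofReal (C * C2 ^ ((4 - p) / 2) * C4 ^ ((p - 2) / 2)) *
          ∫⁻ x : ℝ, ∫⁻ η : Fin m → ℝ,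
            ENNReal.ofReal (ρ η ^ (p - 2) * κ η ^ p) * ‖G η x‖ₑ ^ p := by
  obtain ⟨C, hC, HC⟩ := Pool.Agent.H438R2.RZ.marc24 p hp2 hp4
  refine ⟨C, hC, ?_⟩
  intro m ρ κ hρ hρ0 hκ hκ0 M C2 C4 hM hC2 hC4 H2 H4 G hG
  have hGm := hG.1
  have hθ := measurable_th hρ hκ
  have hF := (meas_Tm hGm hM.meas)
  have key := HC (mu ρ) (nu m) (fun z => ‖Tm m (M z.1) G z.2.2 z.2.1‖)
    (fun z => th ρ κ z.1 * ‖G z.1 z.2‖) hF.norm (meas_f hθ hGm) (fun _ => norm_nonneg _)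
    (fun _ => mul_nonneg (th_nonneg hρ0 hκ0 _) (norm_nonneg _)) C2 C4 hC2 hC4 ?_
  · rw [lint_mu hρ _ ((meas_f hθ hGm).ennreal_ofReal.pow_const p),
      lint_nu _ (hF.norm.ennreal_ofReal.pow_const p)] at key
    simp only [ofReal_norm, pt3 hρ0 hκ0 G hp2] at key
    exact key
  · intro l hl
    refine ⟨fun z => ‖Tm m (M z.1) (tr1 (th ρ κ) G l) z.2.2 z.2.1‖ₑ,
      fun z => ‖Tm m (M z.1) (tr2 (th ρ κ) G l) z.2.2 z.2.1‖ₑ,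
      (meas_Tm (adm1 hθ hG l).1 hM.meas).enorm, (meas_Tm (adm2 hθ hG l).1 hM.meas).enorm,
      Filter.Eventually.of_forall fun z => ?_, ?_, ?_⟩
    · rw [ofReal_norm]
      have hMt : Measurable (M z.1) := hM.meas.comp measurable_prodMk_left
      rw [Tm_add hMt (hM.bd z.1) (adm1 hθ hG l) (adm2 hθ hG l) (tr_add (th ρ κ) G l)]
      exact enorm_add_le _ _
    · rw [lint_nu _ ((meas_Tm (adm1 hθ hG l).1 hM.meas).enorm.pow_const 2)]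
      refine (H2 _ (adm1 hθ hG l)).trans (le_of_eq ?_)
      congr 1
      have hs : MeasurableSet {z : (Fin m → ℝ) × ℝ | l < th ρ κ z.1 * ‖G z.1 z.2‖} :=
        measurableSet_lt measurable_const (meas_f hθ hGm)
      rw [← lintegral_indicator hs,
        lint_mu hρ _ (((meas_f hθ hGm).ennreal_ofReal.pow_const 2).indicator hs)]
      refine lintegral_congr fun x => lintegral_congr fun η => ?_
      rw [pt1 hρ0 hκ0 G hl]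
    · rw [lint_nu _ ((meas_Tm (adm2 hθ hG l).1 hM.meas).enorm.pow_const 4)]
      refine (H4 _ (adm2 hθ hG l)).trans (le_of_eq ?_)
      congr 1
      have hs : MeasurableSet {z : (Fin m → ℝ) × ℝ | th ρ κ z.1 * ‖G z.1 z.2‖ ≤ l} :=
        measurableSet_le (meas_f hθ hGm) measurable_const
      rw [← lintegral_indicator hs,
        lint_mu hρ _ (((meas_f hθ hGm).ennreal_ofReal.pow_const 4).indicator hs)]
      refine lintegral_congr fun x => lintegral_congr fun η => ?_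
      rw [pt2 hρ0 hκ0 G l]

theorem tpk_thm : S_TPK := by
  intro m ρ κ s p hm hρ hρ0 _ hκ hκ0 _ hs hp2 hp4 H2 H4
  obtain ⟨C2, hC2, K2⟩ := H2
  obtain ⟨C4, hC4, K4⟩ := H4
  rcases hp2.eq_or_lt with h | h
  · subst h
    refine ⟨C2, hC2, fun τ G hτ hτ1 hG => ?_⟩
    have h3 := K2 τ G hτ hτ1 hG
    simp only [sub_self, Real.rpow_zero, one_mul, ENNReal.rpow_ofNat, Real.rpow_two]
    exact h3
  · rcases hp4.eq_or_lt with h' | h'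
    · subst h'
      refine ⟨C4, hC4, fun τ G hτ hτ1 hG => ?_⟩
      have h3 := K4 τ G hτ hτ1 hG
      have e1 : (4 : ℝ) - 2 = 2 := by norm_num
      have e2 : ∀ η, κ η ^ (4 : ℝ) = κ η ^ 4 := fun η => by
        rw [← Real.rpow_natCast]; norm_num
      simp only [e1, e2, Real.rpow_two, ENNReal.rpow_ofNat]
      exact h3
    · obtain ⟨C, hC, HC⟩ := interp p h h'
      refine ⟨C * C2 ^ ((4 - p) / 2) * C4 ^ ((p - 2) / 2), by positivity,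
        fun τ G hτ hτ1 hG => ⟨?_, ?_⟩⟩
      · exact HC m ρ κ hρ hρ0 hκ hκ0 (mc s τ) C2 C4 (gb_mc hs hτ) hC2 hC4
          (fun G' hG' => (K2 τ G' hτ hτ1 hG').1) (fun G' hG' => (K4 τ G' hτ hτ1 hG').1) G hG
      · exact HC m ρ κ hρ hρ0 hκ hκ0 (ms s τ) C2 C4 (gb_ms hs hτ) hC2 hC4
          (fun G' hG' => (K2 τ G' hτ hτ1 hG').2) (fun G' hG' => (K4 τ G' hτ hτ1 hG').2) G hG

end Pool.Agent.TH962.TPK
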